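import Pool.Agent.Lib.STG.Main
import Pool.Agent.Lib.GD2.KZ

/-!
# Stable equivalence of idempotents with free ones (MP_16fe43_al, Theorem W)

`exists_stab`: matrices over `B`. `exists_stab_op`: matrices over `S` if `Sᵐᵒᵖ` is the graded ring.
`exists_act_stab`: for `S = End_E(K)`, in terms of the modules `K^n`.
-/

set_option autoImplicit false

namespace Pool.Agent.Lib.STG

open Pool.Agent.Lib.GD2 (GeomDimLETwo stFree_of_fres)
open Pool.Agent.Lib.FPT (MFR)

noncomputable section

section

variable {A : Type} [Ring A]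

private theorem Stab_exists_mat {ι κ : Type} [Fintype ι] [DecidableEq ι]
    (f : (ι → A) →ₗ[A] (κ → A)) : ∃ B : Matrix ι κ A, ∀ v, Matrix.vecMul v B = f v := by
  refine ⟨Matrix.of fun i => f (Pi.single i 1), fun v => ?_⟩
  have h : Matrix.vecMulLinear (Matrix.of fun i => f (Pi.single i 1)) = f := by
    refine LinearMap.pi_ext' fun i => LinearMap.ext_ring ?_
    show Matrix.vecMul (Pi.single i 1) (Matrix.of fun i => f (Pi.single i 1)) = f (Pi.single i 1)
    rw [Matrix.single_one_vecMul]
    rfl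
  exact LinearMap.congr_fun h v

private theorem Stab_mat_ext {ι κ : Type} [Fintype ι] [DecidableEq ι] {B C : Matrix ι κ A}
    (h : ∀ v, Matrix.vecMul v B = Matrix.vecMul v C) : B = C := by
  ext i j
  have h1 := congrFun (h (Pi.single i 1)) j
  rw [Matrix.single_one_vecMul, Matrix.single_one_vecMul] at h1
  exact h1

/-- idempotents whose range has a finite free resolution are stably equivalent to free ones -/
theorem exists_stab {n : ℕ} (e : Matrix (Fin n) (Fin n) A) (he : e * e = e)
    (h : MFR A (LinearMap.range (Matrix.vecMulLinear e))) :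
    ∃ (a b : ℕ) (x : Matrix (Fin n ⊕ Fin a) (Fin b) A) (y : Matrix (Fin b) (Fin n ⊕ Fin a) A),
      x * y = Matrix.fromBlocks e 0 0 1 ∧ y * x = 1 := by
  obtain ⟨k, hk⟩ := h
  have hfix : ∀ p : LinearMap.range (Matrix.vecMulLinear e), Matrix.vecMul p.1 e = p.1 := by
    rintro ⟨_, v, rfl⟩
    show Matrix.vecMul (Matrix.vecMul v e) e = Matrix.vecMul v e
    rw [Matrix.vecMul_vecMul, he]
  have hP : Module.Projective A (LinearMap.range (Matrix.vecMulLinear e)) := by
    refine Module.Projective.of_split (LinearMap.range (Matrix.vecMulLinear e)).subtype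
      (Matrix.vecMulLinear e).rangeRestrict ?_
    ext x : 1
    exact Subtype.ext (hfix x)
  obtain ⟨m, l, ⟨φ⟩⟩ := stFree_of_fres k _ hk
  let X : (Fin n ⊕ Fin m → A) →ₗ[A] (Fin l → A) :=
    φ.toLinearMap.comp (((Matrix.vecMulLinear e).rangeRestrict.prodMap LinearMap.id).comp
      (LinearEquiv.sumArrowLequivProdArrow (Fin n) (Fin m) A A).toLinearMap)
  let Y : (Fin l → A) →ₗ[A] (Fin n ⊕ Fin m → A) :=
    (LinearEquiv.sumArrowLequivProdArrow (Fin n) (Fin m) A A).symm.toLinearMap.comp
      (((LinearMap.range (Matrix.vecMulLinear e)).subtype.prodMap LinearMap.id).comp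
        φ.symm.toLinearMap)
  obtain ⟨x, hx⟩ := Stab_exists_mat X
  obtain ⟨y, hy⟩ := Stab_exists_mat Y
  have hYX : ∀ v, Y (X v) = Matrix.vecMul v (Matrix.fromBlocks e 0 0 1) := by
    intro v
    have h1 : φ.symm (X v) = ((Matrix.vecMulLinear e).rangeRestrict (v ∘ Sum.inl), v ∘ Sum.inr) :=
      φ.symm_apply_apply _
    have h2 : Y (X v) = Sum.elim (Matrix.vecMul (v ∘ Sum.inl) e) (v ∘ Sum.inr) := by
      show Sum.elim ((φ.symm (X v)).1.1) ((φ.symm (X v)).2) = _
      rw [h1]
      rfl
    rw [h2, Matrix.vecMul_fromBlocks, Matrix.vecMul_zero, Matrix.vecMul_zero, Matrix.vecMul_one,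
      zero_add, add_zero]
  have hXY : ∀ w, X (Y w) = w := by
    intro w
    have h1 : X (Y w) = φ ((Matrix.vecMulLinear e).rangeRestrict (φ.symm w).1.1, (φ.symm w).2) :=
      rfl
    have h2 : (Matrix.vecMulLinear e).rangeRestrict (φ.symm w).1.1 = (φ.symm w).1 :=
      Subtype.ext (hfix _)
    rw [h1, h2]
    exact φ.apply_symm_apply w
  refine ⟨m, l, x, y, ?_, ?_⟩
  · refine Stab_mat_ext fun v => ?_
    rw [← Matrix.vecMul_vecMul, hx, hy, hYX]
  · refine Stab_mat_ext fun v => ?_
    rw [← Matrix.vecMul_vecMul, hy, hx, hXY, Matrix.vecMul_one]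

end

section

open MulOpposite

variable {S : Type} [Ring S]

private theorem Stab_op_mul {ι κ l : Type} [Fintype κ] (x : Matrix ι κ Sᵐᵒᵖ)
    (y : Matrix κ l Sᵐᵒᵖ) : (y.map unop).transpose * (x.map unop).transpose =
      ((x * y).map unop).transpose := by
  ext i j
  rw [Matrix.transpose_apply, Matrix.map_apply, Matrix.mul_apply, Matrix.mul_apply,
    Finset.unop_sum]
  exact Finset.sum_congr rfl fun k _ => rfl

/-- the same over a ring `S` whose opposite ring satisfies the hypothesis -/
theorem exists_stab_op (hS : ∀ (n : ℕ) (e : Matrix (Fin n) (Fin n) Sᵐᵒᵖ), e * e = e →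
      MFR Sᵐᵒᵖ (LinearMap.range (Matrix.vecMulLinear e)))
    {n : ℕ} (ε : Matrix (Fin n) (Fin n) S) (hε : ε * ε = ε) :
    ∃ (a b : ℕ) (x : Matrix (Fin b) (Fin n ⊕ Fin a) S) (y : Matrix (Fin n ⊕ Fin a) (Fin b) S),
      y * x = Matrix.fromBlocks ε 0 0 1 ∧ x * y = 1 := by
  let e : Matrix (Fin n) (Fin n) Sᵐᵒᵖ := (ε.map op).transpose
  have he1 : (e.map unop).transpose = ε := by
    ext i j
    rfl
  have he : e * e = e := by
    have h1 : ((e * e).map unop).transpose = (e.map unop).transpose := by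
      rw [← Stab_op_mul, he1, hε]
    ext i j
    have h2 := congrFun (congrFun h1 j) i
    exact unop_injective h2
  obtain ⟨a, b, x, y, hxy, hyx⟩ := exists_stab e he (hS n e he)
  refine ⟨a, b, (x.map unop).transpose, (y.map unop).transpose, ?_, ?_⟩
  · rw [Stab_op_mul, hxy]
    ext i j
    rcases i with i | i <;> rcases j with j | j
    · rfl
    · rfl
    · rfl
    · rw [Matrix.transpose_apply, Matrix.map_apply, Matrix.fromBlocks_apply₂₂,
        Matrix.fromBlocks_apply₂₂, Matrix.one_apply, Matrix.one_apply]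
      by_cases h : i = j
      · rw [if_pos h, if_pos h.symm]; rfl
      · rw [if_neg h, if_neg (Ne.symm h)]; rfl
  · rw [Stab_op_mul, hyx]
    ext i j
    rw [Matrix.transpose_apply, Matrix.map_apply, Matrix.one_apply, Matrix.one_apply]
    by_cases h : i = j
    · rw [if_pos h, if_pos h.symm]; rfl
    · rw [if_neg h, if_neg (Ne.symm h)]; rfl

end

section

variable {E K : Type} [Ring E] [AddCommGroup K] [Module E K]

/-- the action of a matrix of endomorphisms -/
def act {ι κ : Type} [Fintype κ] (M : Matrix ι κ (Module.End E K)) : (κ → K) →ₗ[E] (ι → K) :=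
  LinearMap.pi fun i => ∑ j, (M i j).comp (LinearMap.proj j)

theorem act_apply {ι κ : Type} [Fintype κ] (M : Matrix ι κ (Module.End E K)) (v : κ → K)
    (i : ι) : act M v i = ∑ j, M i j (v j) := by
  unfold act
  rw [LinearMap.pi_apply, LinearMap.sum_apply]
  rfl

theorem act_mul {ι κ l : Type} [Fintype κ] [Fintype l] (M : Matrix ι κ (Module.End E K))
    (N : Matrix κ l (Module.End E K)) (v : l → K) : act (M * N) v = act M (act N v) := by
  funext i
  rw [act_apply, act_apply]
  simp only [act_apply, Matrix.mul_apply, LinearMap.sum_apply, map_sum]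
  rw [Finset.sum_comm]
  rfl

theorem act_one {ι : Type} [Fintype ι] [DecidableEq ι] (v : ι → K) :
    act (1 : Matrix ι ι (Module.End E K)) v = v := by
  funext i
  rw [act_apply, Finset.sum_eq_single i]
  · rw [Matrix.one_apply_eq]; rfl
  · intro j _ hj
    rw [Matrix.one_apply_ne hj.symm]; rfl
  · intro h; exact absurd (Finset.mem_univ _) h

theorem act_fromBlocks {n a : ℕ} (ε : Matrix (Fin n) (Fin n) (Module.End E K)) (v : Fin n → K)
    (w : Fin a → K) : act (Matrix.fromBlocks ε 0 0 1) (Sum.elim v w) = Sum.elim (act ε v) w := by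
  funext i
  rw [act_apply, Fintype.sum_sum_type]
  rcases i with i | i
  · rw [Sum.elim_inl, act_apply]
    simp only [Matrix.fromBlocks_apply₁₁, Matrix.fromBlocks_apply₁₂, Sum.elim_inl, Sum.elim_inr,
      Matrix.zero_apply, LinearMap.zero_apply, Finset.sum_const_zero, add_zero]
  · rw [Sum.elim_inr]
    have h1 := congrFun (act_one (E := E) w) i
    rw [act_apply] at h1
    simp only [Matrix.fromBlocks_apply₂₁, Matrix.fromBlocks_apply₂₂, Sum.elim_inl, Sum.elim_inr,
      Matrix.zero_apply, LinearMap.zero_apply, Finset.sum_const_zero, zero_add]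
    exact h1

variable {G : Type} [Group G]

/-- **idempotent endomorphisms of `K ^ n`** are stably equivalent to free ones, if `End_E(K)` (acting on the
right) is a graded division ring over a group of geometric dimension `≤ 2` -/
theorem exists_act_stab (R : RG G (Module.End E K)ᵐᵒᵖ)
    (hdiv : ∀ g b, R.p g b = b → b ≠ 0 → IsUnit b) (hG : GeomDimLETwo G) {n : ℕ}
    (ε : Matrix (Fin n) (Fin n) (Module.End E K)) (hε : ε * ε = ε) :
    ∃ (a b : ℕ) (θ : (Fin b → K) →ₗ[E] ((Fin n → K) × (Fin a → K)))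
      (η : ((Fin n → K) × (Fin a → K)) →ₗ[E] (Fin b → K)),
      (∀ v, η (θ v) = v) ∧ ∀ v w, θ (η (v, w)) = (act ε v, w) := by
  obtain ⟨a, b, x, y, h1, h2⟩ := exists_stab_op
    (fun n e he => mfr_idem R hdiv hG e he) ε hε
  let s := LinearEquiv.sumArrowLequivProdArrow (Fin n) (Fin a) E K
  refine ⟨a, b, s.toLinearMap.comp (act y), (act x).comp s.symm.toLinearMap, ?_, ?_⟩
  · intro v
    change act x (s.symm (s (act y v))) = v
    rw [s.symm_apply_apply, ← act_mul, h2, act_one]
  · intro v w
    change s (act y (act x (s.symm (v, w)))) = _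
    rw [← act_mul, h1]
    have h3 : s.symm (v, w) = Sum.elim v w := rfl
    rw [h3, act_fromBlocks]
    rfl

end

end

end Pool.Agent.Lib.STG
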